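import Pool.Agent.X68.CP.TwoCheck

/-!
# A CPET tree of maximum degree 4 with two vertices of degree 4

The tree has 61 vertices.  It has two vertices `u`, `v` of degree 4 joined by a path with 12 inner
vertices; `u` also carries a leaf, a path with 2 vertices and a path with 12 vertices; `v` also carries
two leaves and a path with 30 vertices.

The 1121505 partitions of 61 are covered by a decision tree with 2435 leaves.  A leaf is a list of
largest parts together with a placement of these parts (one of them contains both `u` and `v`, or two
of them contain `u` and `v`) from which every completion is found by placing the remaining parts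
greedily.
-/

set_option autoImplicit false

namespace Pool.Agent.Results.MP_d6ea2c_co.TwoDegreeFour

/-- `T` has a connected partition of type `lam`: a partition of the vertex set into blocks inducing
connected subgraphs, the multiset of block sizes being `lam`. -/
def HasConnectedPartition {n : ℕ} (T : SimpleGraph (Fin n)) (lam : n.Partition) : Prop :=
  ∃ P : Finpartition (Finset.univ : Finset (Fin n)),
    (∀ B ∈ P.parts, (T.induce (B : Set (Fin n))).Connected) ∧
      P.parts.val.map Finset.card = lam.parts

/-- the degree of `v` in `T` -/
noncomputable def deg {n : ℕ} (T : SimpleGraph (Fin n)) (v : Fin n) : ℕ := (T.neighborSet v).ncard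

/-- `T` is a CPET tree: a tree that has a connected partition of every type. -/
def IsCPET {n : ℕ} (T : SimpleGraph (Fin n)) : Prop :=
  T.IsTree ∧ ∀ lam : n.Partition, HasConnectedPartition T lam

open Pool.Agent.X68.CP.Two in
theorem deg_eq (v : Fin 61) : deg T v = T.degree v := by
  unfold deg
  rw [← Nat.card_coe_set_eq, Nat.card_eq_fintype_card, SimpleGraph.card_neighborSet_eq_degree]

/-- There is a CPET tree `T` with `Δ(T) = 4` that has two different vertices of degree 4. -/
theorem result : ∃ (n : ℕ) (T : SimpleGraph (Fin n)), IsCPET T ∧ (∀ w, deg T w ≤ 4) ∧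
    ∃ u v, u ≠ v ∧ deg T u = 4 ∧ deg T v = 4 := by
  refine ⟨61, Pool.Agent.X68.CP.Two.T, ⟨Pool.Agent.X68.CP.Two.isTree, ?_⟩, ?_, 0, 28, ?_, ?_, ?_⟩
  · intro lam
    exact Pool.Agent.X68.CP.Two.all_types lam.parts (fun a ha => lam.parts_pos ha) lam.parts_sum
  · intro w
    rw [deg_eq]
    exact Pool.Agent.X68.CP.Two.degrees w
  · decide
  · rw [deg_eq]
    exact Pool.Agent.X68.CP.Two.degree0
  · rw [deg_eq]
    exact Pool.Agent.X68.CP.Two.degree28

end Pool.Agent.Results.MP_d6ea2c_co.TwoDegreeFour
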